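import Pool.Agent.Helper86.Poly.Goals

set_option autoImplicit false

namespace Pool.Agent.Helper49.Poly

open Pool.Agent.Helper86.Poly Set

theorem PkCOMP.thm : G_COMP := by
  intro d P hne hP
  let S : Set (Set (E d)) := {K | ∀ x ∈ K, ∀ y ∈ K, dist x y ≤ 1}
  obtain ⟨K, hPK, hK⟩ := zorn_subset_nonempty S (by
    intro c hcS hc hcne
    refine ⟨⋃₀ c, ?_, fun s hs => subset_sUnion_of_mem hs⟩
    rintro x ⟨s, hs, hxs⟩ y ⟨t, ht, hyt⟩
    rcases hc.total hs ht with h | h
    · exact hcS ht x (h hxs) y hyt
    · exact hcS hs x hxs y (h hyt)) P hP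
  have hKS : ∀ x ∈ K, ∀ y ∈ K, dist x y ≤ 1 := hK.prop
  have hmax : ∀ L : Set (E d), (∀ x ∈ L, ∀ y ∈ L, dist x y ≤ 1) → K ⊆ L → L ⊆ K := by
    intro L hL hKL
    exact hK.le_of_ge hL hKL
  have hKne : K.Nonempty := hne.mono hPK
  -- convex
  have hconv : Convex ℝ K := by
    have h1 : convexHull ℝ K ⊆ K := by
      apply hmax _ _ (subset_convexHull ℝ K)
      intro x hx y hy
      obtain ⟨x', hx', y', hy', h⟩ := convexHull_exists_dist_ge2 hx hy
      exact h.trans (hKS x' hx' y' hy')
    have h2 : convexHull ℝ K = K := Subset.antisymm h1 (subset_convexHull ℝ K)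
    rw [← h2]; exact convex_convexHull ℝ K
  have hcl : IsClosed K := by
    have h1 : closure K ⊆ K := by
      apply hmax _ _ subset_closure
      intro x hx y hy
      have h2 : dist x y ∈ closure (Iic (1 : ℝ)) :=
        map_mem_closure₂ (f := fun a b : E d => dist a b) continuous_dist hx hy
          (fun a ha b hb => hKS a ha b hb)
      rwa [closure_Iic] at h2
    exact isClosed_of_closure_subset h1
  have hbdd : Bornology.IsBounded K := by
    rw [Metric.isBounded_iff]
    exact ⟨1, fun x hx y hy => hKS x hx y hy⟩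
  refine ⟨K, hPK, Metric.isCompact_of_isClosed_isBounded hcl hbdd, hconv, hKS, ?_⟩
  intro w hw
  by_contra hcon
  push Not at hcon
  apply hw
  apply hmax (insert w K) _ (subset_insert w K) (mem_insert w K)
  intro x hx y hy
  rcases hx with rfl | hx
  · rcases hy with rfl | hy
    · simp
    · exact hcon y hy
  · rcases hy with rfl | hy
    · rw [dist_comm]; exact hcon x hx
    · exact hKS x hx y hy

end Pool.Agent.Helper49.Poly
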